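import Mathlib
import Pool.Agent.H7.PshDefs
import Pool.Agent.H7.PshMain

set_option autoImplicit false

namespace Pool.Agent.Results.MP_725b87_an.NotPluripolar

open Pool.Agent.H7.Psh

/-- For every `n ≥ 1` and every domain (nonempty connected open set) `Ω ⊆ ℂⁿ` there is a continuous
real-valued plurisubharmonic function `φ` on `Ω` whose exceptional set `E(φ)` (points with no
differential test from above) is not pluripolar: it is not contained in `{u = -∞}` for any
plurisubharmonic `u ≢ -∞` on `Ω`, nor for such a `u` on a larger domain `D ⊇ Ω`, such as `ℂⁿ`. -/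
theorem result (n : ℕ) (hn : 0 < n) (Ω : Set (Cn n)) (hΩo : IsOpen Ω) (hΩc : IsConnected Ω) :
    ∃ φ : Cn n → ℝ, Continuous φ ∧ IsPsh Ω (fun z => (φ z : EReal)) ∧
      ∀ D : Set (Cn n), IsOpen D → IsConnected D → Ω ⊆ D → ¬ IsPluripolarIn D (Exc Ω φ) :=
  main n hn Ω hΩo hΩc

end Pool.Agent.Results.MP_725b87_an.NotPluripolar
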